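import Pool.Agent.N805.JG.Stm

/-!
# JG/SYM: from the functions `∏ (T - x)⁺` to the orthants, with a small enlargement
-/

set_option autoImplicit false

open MeasureTheory Filter Topology

namespace Pool.Agent.N475.JG

open Pool.Agent.N805.JG

/-- the ramp function, `1` before `s`, `0` after `s + h` -/
noncomputable def ph (s h t : ℝ) : ℝ := (max (s + h - t) 0 - max (s - t) 0) / h

lemma ph_nonneg {s h t : ℝ} (hh : 0 < h) : 0 ≤ ph s h t := by
  unfold ph
  apply div_nonneg _ hh.le
  have : max (s - t) 0 ≤ max (s + h - t) 0 := max_le_max (by linarith) le_rfl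
  linarith

lemma ph_le_one {s h t : ℝ} (hh : 0 < h) : ph s h t ≤ 1 := by
  unfold ph
  rw [div_le_one hh]
  have : max (s + h - t) 0 ≤ max (s - t) 0 + h := by
    apply max_le
    · linarith [le_max_left (s - t) 0]
    · linarith [le_max_right (s - t) 0]
  linarith

lemma ph_one {s h t : ℝ} (hh : 0 < h) (ht : t ≤ s) : ph s h t = 1 := by
  unfold ph
  rw [max_eq_left (by linarith), max_eq_left (by linarith)]
  rw [div_eq_one_iff_eq hh.ne']
  ring

lemma ph_zero {s h t : ℝ} (hh : 0 < h) (ht : s + h ≤ t) : ph s h t = 0 := by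
  unfold ph
  rw [max_eq_right (by linarith), max_eq_right (by linarith)]
  simp

lemma meas_ph (s h : ℝ) : Measurable (ph s h) := by
  unfold ph
  exact (((measurable_const.sub measurable_id).max measurable_const).sub
    ((measurable_const.sub measurable_id).max measurable_const)).div_const h

lemma meas_prod_ph (I : Finset ℕ) (s : ℕ → ℝ) (h : ℝ) :
    Measurable (fun x : ℕ → ℝ => ∏ i ∈ I, ph (s i) h (x i)) := by
  apply Finset.measurable_fun_prod
  intro i _
  exact (meas_ph (s i) h).comp (measurable_pi_apply i)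

lemma meas_prod_max (I : Finset ℕ) (T : ℕ → ℝ) :
    Measurable (fun x : ℕ → ℝ => ∏ i ∈ I, max (T i - x i) 0) := by
  apply Finset.measurable_fun_prod
  intro i _
  exact (measurable_const.sub (measurable_pi_apply i)).max measurable_const

lemma int_prod_ph (μ : Measure (ℕ → ℝ)) [IsProbabilityMeasure μ] (I : Finset ℕ) (s : ℕ → ℝ) (h : ℝ)
    (hh : 0 < h) : Integrable (fun x : ℕ → ℝ => ∏ i ∈ I, ph (s i) h (x i)) μ := by
  apply Integrable.of_bound (meas_prod_ph I s h).aestronglyMeasurable 1
  apply Eventually.of_forall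
  intro x
  rw [Real.norm_of_nonneg (Finset.prod_nonneg fun i _ => ph_nonneg hh)]
  exact Finset.prod_le_one (fun i _ => ph_nonneg hh) (fun i _ => ph_le_one hh)

lemma int_prod_max (μ : Measure (ℕ → ℝ)) [IsProbabilityMeasure μ] (hμ : ∀ i, ∀ᵐ x ∂μ, 0 ≤ x i)
    (I : Finset ℕ) (T : ℕ → ℝ) (hT : ∀ i, 0 ≤ T i) :
    Integrable (fun x : ℕ → ℝ => ∏ i ∈ I, max (T i - x i) 0) μ := by
  apply Integrable.of_bound (meas_prod_max I T).aestronglyMeasurable (∏ i ∈ I, T i)
  have h1 : ∀ᵐ x ∂μ, ∀ i, 0 ≤ x i := ae_all_iff.2 hμ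
  filter_upwards [h1] with x hx
  rw [Real.norm_of_nonneg (Finset.prod_nonneg fun i _ => le_max_right _ _)]
  apply Finset.prod_le_prod (fun i _ => le_max_right _ _)
  intro i _
  exact max_le (by linarith [hx i]) (hT i)

lemma meas_orth (I : Finset ℕ) (s : ℕ → ℝ) : MeasurableSet {x : ℕ → ℝ | ∀ i ∈ I, x i ≤ s i} := by
  have : {x : ℕ → ℝ | ∀ i ∈ I, x i ≤ s i} = ⋂ i ∈ I, {x : ℕ → ℝ | x i ≤ s i} := by
    ext x; simp
  rw [this]
  apply Finset.measurableSet_biInter
  intro i _
  exact measurableSet_le (measurable_pi_apply i) measurable_const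

lemma F_le_int (μ : Measure (ℕ → ℝ)) [IsProbabilityMeasure μ] (I : Finset ℕ) (s : ℕ → ℝ) (h : ℝ)
    (hh : 0 < h) : F μ I s ≤ ∫ x, ∏ i ∈ I, ph (s i) h (x i) ∂μ := by
  unfold F
  rw [← integral_indicator_one (meas_orth I s)]
  apply integral_mono _ (int_prod_ph μ I s h hh)
  · intro x
    by_cases hx : x ∈ {x : ℕ → ℝ | ∀ i ∈ I, x i ≤ s i}
    · rw [Set.indicator_of_mem hx]
      show (1 : ℝ) ≤ ∏ i ∈ I, ph (s i) h (x i)
      rw [Finset.prod_congr rfl (fun i hi => ph_one hh (hx i hi))]
      simp
    · rw [Set.indicator_of_notMem hx]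
      exact Finset.prod_nonneg fun i _ => ph_nonneg hh
  · exact (integrable_const (1 : ℝ)).indicator (meas_orth I s)

lemma int_le_F (μ : Measure (ℕ → ℝ)) [IsProbabilityMeasure μ] (I : Finset ℕ) (s : ℕ → ℝ) (h : ℝ)
    (hh : 0 < h) : ∫ x, ∏ i ∈ I, ph (s i) h (x i) ∂μ ≤ F μ I (fun i => s i + h) := by
  unfold F
  rw [← integral_indicator_one (meas_orth I fun i => s i + h)]
  apply integral_mono (int_prod_ph μ I s h hh)
  · exact (integrable_const (1 : ℝ)).indicator (meas_orth I _)
  · intro x
    by_cases hx : x ∈ {x : ℕ → ℝ | ∀ i ∈ I, x i ≤ s i + h}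
    · rw [Set.indicator_of_mem hx]
      exact Finset.prod_le_one (fun i _ => ph_nonneg hh) (fun i _ => ph_le_one hh)
    · rw [Set.indicator_of_notMem hx]
      simp only [Set.mem_ofPred_eq, not_forall, not_le] at hx
      obtain ⟨i, hi, hx⟩ := hx
      exact (Finset.prod_eq_zero hi (ph_zero hh hx.le)).le

/-- the expansion of the product of the ramps -/
lemma prod_ph_eq (I : Finset ℕ) (s : ℕ → ℝ) (h : ℝ) (x : ℕ → ℝ) :
    ∏ i ∈ I, ph (s i) h (x i) =
      ∑ J ∈ I.powerset, ((1 / h) ^ J.card * (-(1 / h)) ^ (I \ J).card) *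
        ∏ i ∈ I, max ((if i ∈ J then s i + h else if i ∈ I then s i else 0) - x i) 0 := by
  have h1 : ∀ i ∈ I, ph (s i) h (x i) =
      (1 / h) * max (s i + h - x i) 0 + (-(1 / h)) * max (s i - x i) 0 := by
    intro i _
    unfold ph
    ring
  rw [Finset.prod_congr rfl h1, Finset.prod_add]
  apply Finset.sum_congr rfl
  intro J hJ
  rw [Finset.mem_powerset] at hJ
  rw [Finset.prod_mul_distrib, Finset.prod_mul_distrib, Finset.prod_const, Finset.prod_const,
    ← Finset.prod_sdiff hJ]
  have h2 : ∏ i ∈ J, max ((if i ∈ J then s i + h else if i ∈ I then s i else 0) - x i) 0 =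
      ∏ i ∈ J, max (s i + h - x i) 0 := by
    apply Finset.prod_congr rfl
    intro i hi
    rw [if_pos hi]
  have h3 : ∏ i ∈ I \ J, max ((if i ∈ J then s i + h else if i ∈ I then s i else 0) - x i) 0 =
      ∏ i ∈ I \ J, max (s i - x i) 0 := by
    apply Finset.prod_congr rfl
    intro i hi
    rw [Finset.mem_sdiff] at hi
    rw [if_neg hi.2, if_pos hi.1]
  rw [h2, h3]
  ring

theorem SYM : Pool.Agent.N805.JG.S_SYM := by
  intro ι L P Q hP hQ I hT s h ε hh hε
  by_cases hs : ∀ i ∈ I, 0 ≤ s i
  · have key : Tendsto (fun j => D P Q j (fun x => ∏ i ∈ I, ph (s i) h (x i))) L (𝓝 0) := by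
      have h1 : ∀ j, D P Q j (fun x => ∏ i ∈ I, ph (s i) h (x i)) =
          ∑ J ∈ I.powerset, ((1 / h) ^ J.card * (-(1 / h)) ^ (I \ J).card) *
            D P Q j (fun x => ∏ i ∈ I,
              max ((if i ∈ J then s i + h else if i ∈ I then s i else 0) - x i) 0) := by
        intro j
        have := hP.prob j
        have := hQ.prob j
        have hT0 : ∀ J ∈ I.powerset, ∀ i : ℕ,
            0 ≤ (if i ∈ J then s i + h else if i ∈ I then s i else 0) := by
          intro J hJ i
          rw [Finset.mem_powerset] at hJ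
          split_ifs with h2 h3
          · linarith [hs i (hJ h2)]
          · exact hs i h3
          · exact le_rfl
        unfold D
        simp_rw [prod_ph_eq]
        rw [integral_finsetSum, integral_finsetSum, ← Finset.sum_sub_distrib]
        · apply Finset.sum_congr rfl
          intro J _
          rw [integral_const_mul, integral_const_mul]
          ring
        · intro J hJ
          exact (int_prod_max (Q j) (hQ.nn j) I _ (hT0 J hJ)).const_mul _
        · intro J hJ
          exact (int_prod_max (P j) (hP.nn j) I _ (hT0 J hJ)).const_mul _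
      simp_rw [h1]
      have h0 : (𝓝 (0 : ℝ)) = 𝓝 (∑ J ∈ I.powerset,
        ((1 / h) ^ J.card * (-(1 / h)) ^ (I \ J).card) * 0) := by simp
      rw [h0]
      apply tendsto_finsetSum
      intro J hJ
      apply Tendsto.const_mul
      apply hT
      intro i
      rw [Finset.mem_powerset] at hJ
      split_ifs with h2 h3
      · linarith [hs i (hJ h2)]
      · exact hs i h3
      · exact le_rfl
    have h2 : ∀ᶠ j in L, -ε < D P Q j (fun x => ∏ i ∈ I, ph (s i) h (x i)) :=
      key.eventually (lt_mem_nhds (by linarith))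
    filter_upwards [h2] with j hj
    have := hP.prob j
    have := hQ.prob j
    have h3 := F_le_int (Q j) I s h hh
    have h4 := int_le_F (P j) I s h hh
    unfold D at hj
    linarith
  · push Not at hs
    obtain ⟨i, hi, hsi⟩ := hs
    apply Eventually.of_forall
    intro j
    have := hP.prob j
    have := hQ.prob j
    have h0 : F (Q j) I s = 0 := by
      unfold F
      rw [measureReal_def]
      have : (Q j) {x | ∀ i ∈ I, x i ≤ s i} = 0 := by
        rw [measure_eq_zero_iff_ae_notMem]
        filter_upwards [hQ.nn j i] with x hx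
        intro h5
        have := h5 i hi
        linarith
      rw [this]
      simp
    have h6 : 0 ≤ F (P j) I (fun i => s i + h) := measureReal_nonneg
    rw [h0]
    linarith

end Pool.Agent.N475.JG
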